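import Mathlib
import Pool.Agent.Helper41.UphoExample

/-!
# An upho lattice that is not multiplicable

The poset is `Pool.Agent.Helper41.UphoExample.P false`: words over `{0,1,2}`, modulo the right
congruence generated by `u00 = u10 = u20` if `u` does not end in `2`, and `u01 = u10 = u20` if `u`
ends in `2`, ordered by left divisibility.
-/

namespace Pool.Agent.Results.MP_8cec24_co.NotMultiplicable

open Pool.Agent.Helper41.UphoExample in
/-- There is a finite-type graded upho lattice that is not multiplicable. -/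
theorem result : ∃ (P : Type) (_ : Lattice P) (_ : OrderBot P),
    -- `P` is upper homogeneous
    (∀ a : P, Nonempty (Set.Ici a ≃o P)) ∧
    -- `P` is finitary
    (∀ a : P, Order.height a < ⊤) ∧
    -- `P` is graded of finite type
    (∃ ρ : P → ℕ, ρ ⊥ = 0 ∧ (∀ x y : P, x ⋖ y → ρ y = ρ x + 1) ∧
      ∀ n : ℕ, {x : P | ρ x = n}.Finite) ∧
    -- `P` is not multiplicable
    ¬ ∃ _ : Monoid P,
      (∀ a b c : P, a * b = a * c → b = c) ∧
      (∀ a b : P, a * b = 1 → a = 1 ∧ b = 1) ∧
      (∀ a b : P, a ≤ b ↔ ∃ c : P, a * c = b) :=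
  ⟨P false, inferInstance, inferInstance, upho, height_lt_top,
    ⟨rk, rfl, fun _ _ h => rk_covBy h, rk_finite false⟩, not_multiplicable⟩

end Pool.Agent.Results.MP_8cec24_co.NotMultiplicable
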